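import Mathlib
import Pool.Agent.H23.GcdGold

open Pool.Agent.H23.GcdRun Filter Topology

theorem Pool.Agent.Results.MP_b5e119_nt.Dichotomy.full
    (a : ℕ → ℕ → ℤ) (g : ℕ → ℕ)
    (h1 : ∀ N : ℕ, 3 ≤ N → a N 1 = (N : ℤ) - 2)
    (hrec : ∀ N n : ℕ, 3 ≤ N → 2 ≤ n →
      a N n = a N (n - 1) - Int.gcd (a N (n - 1)) ((N : ℤ) - (-1) ^ n * ((N : ℤ) - n)))
    (hg : ∀ N : ℕ, 3 ≤ N → IsLeast {n | 2 ≤ n ∧ a N n = 0} (g N)) :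
    (∀ N : ℕ, 3 ≤ N → ((g N + 1).Prime ∧ (2 * N - g N - 1).Prime) ∨
      4 * g N + 2 ≤ 3 * N + 2 * Nat.sqrt (2 * N)) ∧
    (∀ c : ℝ, 3 / 4 < c → ∃ N₀ : ℕ, ∀ N : ℕ, N₀ ≤ N → c * N ≤ g N →
      (g N + 1).Prime ∧ (2 * N - g N - 1).Prime) ∧
    (Tendsto (fun N : ℕ => (g N : ℝ) / N) atTop (𝓝 1) →
      ∃ N₀ : ℕ, ∀ N : ℕ, N₀ ≤ N → (g N + 1).Prime ∧ (2 * N - g N - 1).Prime) := by
  have hA : ∀ N : ℕ, 3 ≤ N → ((g N + 1).Prime ∧ (2 * N - g N - 1).Prime) ∨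
      4 * g N + 2 ≤ 3 * N + 2 * Nat.sqrt (2 * N) := fun N hN =>
    goldbach N hN (a N) (h1 N hN) (fun n hn => hrec N n hN hn) (g N) (hg N hN)
  have hB : ∀ c : ℝ, 3 / 4 < c → ∀ᶠ N : ℕ in atTop, c * N ≤ g N →
      (g N + 1).Prime ∧ (2 * N - g N - 1).Prime := by
    intro c hc
    filter_upwards [eventually_sqrt 3 (4 * c) (by linarith) 2 2 0, eventually_ge_atTop 3]
      with N hN hN3 hcN
    rcases hA N hN3 with h | h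
    · exact h
    · exfalso
      have h2 : 4 * (g N : ℝ) + 2 ≤ 3 * N + 2 * (Nat.sqrt (2 * N) : ℕ) := by exact_mod_cast h
      simp only [Nat.add_zero, Nat.cast_ofNat] at hN
      linarith
  refine ⟨hA, fun c hc => eventually_atTop.mp (hB c hc), fun ht => eventually_atTop.mp ?_⟩
  filter_upwards [hB (7 / 8) (by norm_num), ht.eventually (lt_mem_nhds (by norm_num : (7 / 8 : ℝ) < 1)),
    eventually_ge_atTop 1] with N h2 h3 h4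
  apply h2
  have h5 : (0 : ℝ) < N := by exact_mod_cast h4
  exact ((lt_div_iff₀ h5).mp h3).le

theorem Pool.Agent.Results.MP_b5e119_nt.Dichotomy.result
    (a : ℕ → ℕ → ℤ) (g : ℕ → ℕ)
    (h1 : ∀ N : ℕ, 3 ≤ N → a N 1 = (N : ℤ) - 2)
    (hrec : ∀ N n : ℕ, 3 ≤ N → 2 ≤ n →
      a N n = a N (n - 1) - Int.gcd (a N (n - 1)) ((N : ℤ) - (-1) ^ n * ((N : ℤ) - n)))
    (hg : ∀ N : ℕ, 3 ≤ N → IsLeast {n | 2 ≤ n ∧ a N n = 0} (g N)) :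
    ∀ N : ℕ, 3 ≤ N → ((g N + 1).Prime ∧ (2 * N - g N - 1).Prime) ∨
      4 * g N + 2 ≤ 3 * N + 2 * Nat.sqrt (2 * N) :=
  (Pool.Agent.Results.MP_b5e119_nt.Dichotomy.full a g h1 hrec hg).1
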